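import Pool.Agent.R349.SNSteps

/-!
# MP_d3d931_al, Q2

There is a semigroup `S` with three generators which is left `2`-nilpotent and right `2`-nilpotent,
but which is not `d`-supernilpotent for any `d`.

The definitions of the higher commutators are those of `Pool.Agent.R349.SNDefs` (used by the starting
result on Q1):
* `Mat m S` : matrices over `S` with rows indexed by `Fin m → Bool` and two columns;
* `gens α β`, `MM α β` : the generating matrices and the subsemigroup
  `M(α_1, …, α_m, β)` generated by them;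
* `comm α β` : the higher commutator `[α_1, …, α_m, β]`, the least congruence satisfying the
  term condition for `MM α β`;
* `Supernilpotent S d`, `leftS S d = ⊥`, `rightS S d = ⊥` : `d`-supernilpotence, left
  `d`-nilpotence and right `d`-nilpotence.

The semigroup.  Consider words in the letters `b`, `c`, `d`.  The image of a word in the rectangular
group `{0, 1} × (ℤ × ℤ / 2) × {0, 1}` records whether the first letter is not `b`, the number of
letters which are not `b`, the parity of the number of the letters `d`, and whether the last letter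
is not `b`.  Two words are identified if their images are the same, with one exception: the words
`c b ^ m c` and `d b ^ m d`, which have the same image, are kept apart.
-/

set_option autoImplicit false

namespace Pool.Agent.Results.MP_d3d931_al.NilpotentNotSupernilpotent

open Pool.Agent.R349.SN

/-- The three letters. -/
inductive Letter
  | b
  | c
  | d

/-- The data of a word: is the first letter different from `b`; the number of letters different from
`b`; the number of letters `d`; is the last letter different from `b`. -/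
@[ext]
structure W where
  h : Bool
  P : ℕ
  D : ℕ
  l : Bool

instance : Semigroup W where
  mul x y := ⟨x.h, x.P + y.P, x.D + y.D, y.l⟩
  mul_assoc x y z := by
    ext
    · rfl
    · exact Nat.add_assoc _ _ _
    · exact Nat.add_assoc _ _ _
    · rfl

theorem mul_h (x y : W) : (x * y).h = x.h := rfl
theorem mul_P (x y : W) : (x * y).P = x.P + y.P := rfl
theorem mul_D (x y : W) : (x * y).D = x.D + y.D := rfl
theorem mul_l (x y : W) : (x * y).l = y.l := rfl

/-- The data of a letter. -/
def letter : Letter → W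
  | .b => ⟨false, 0, 0, false⟩
  | .c => ⟨true, 1, 0, true⟩
  | .d => ⟨true, 1, 1, true⟩

/-- The data of a word. -/
def val : FreeSemigroup Letter →ₙ* W := FreeSemigroup.lift letter

theorem val_of (x : Letter) : val (FreeSemigroup.of x) = letter x := FreeSemigroup.lift_of _ _

theorem good (u : FreeSemigroup Letter) : ((val u).h = true → 1 ≤ (val u).P) ∧
    ((val u).l = true → 1 ≤ (val u).P) ∧ (val u).D ≤ (val u).P := by
  induction u using FreeSemigroup.recOnMul with
  | ih1 x =>
    rw [val_of]
    cases x <;> simp [letter]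
  | ih2 x y hx hy =>
    rw [map_mul, mul_h, mul_P, mul_D, mul_l]
    refine ⟨fun h => ?_, fun h => ?_, ?_⟩
    · have := hx.1 h; omega
    · have := hy.2.1 h; omega
    · have := hx.2.2; have := hy.2.2; omega

/-- Two words have the same image in the rectangular group. -/
def Same (u v : FreeSemigroup Letter) : Prop :=
  (val u).h = (val v).h ∧ (val u).l = (val v).l ∧ (val u).P = (val v).P ∧
    (val u).D % 2 = (val v).D % 2

/-- The relation which defines the semigroup. -/
def Rel (u v : FreeSemigroup Letter) : Prop :=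
  Same u v ∧ ((val u).h = true → (val u).l = true → (val u).P = 2 → (val u).D = (val v).D)

theorem key {u u' v v' : FreeSemigroup Letter} (h : Same u u') (k : Same v v') :
    Rel (u * v) (u' * v') := by
  obtain ⟨h1, h2, h3, h4⟩ := h
  obtain ⟨k1, k2, k3, k4⟩ := k
  refine ⟨⟨?_, ?_, ?_, ?_⟩, ?_⟩
  · rw [map_mul, map_mul, mul_h, mul_h, h1]
  · rw [map_mul, map_mul, mul_l, mul_l, k2]
  · rw [map_mul, map_mul, mul_P, mul_P, h3, k3]
  · rw [map_mul, map_mul, mul_D, mul_D]; omega
  · rw [map_mul, map_mul, mul_h, mul_l, mul_P, mul_D, mul_D]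
    intro e1 e2 e3
    have g1 := (good u).1 e1
    have g2 := (good v).2.1 e2
    have g3 := (good u).2.2
    have g4 := (good v).2.2
    have g5 := (good u').2.2
    have g6 := (good v').2.2
    omega

/-- The congruence which defines the semigroup. -/
def con : Con (FreeSemigroup Letter) where
  r := Rel
  iseqv := by
    refine ⟨fun u => ⟨⟨rfl, rfl, rfl, rfl⟩, fun _ _ _ => rfl⟩, ?_, ?_⟩
    · rintro u v ⟨⟨h1, h2, h3, h4⟩, h5⟩
      exact ⟨⟨h1.symm, h2.symm, h3.symm, h4.symm⟩, fun e1 e2 e3 =>
        (h5 (h1.trans e1) (h2.trans e2) (h3.trans e3)).symm⟩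
    · rintro u v w ⟨⟨h1, h2, h3, h4⟩, h5⟩ ⟨⟨k1, k2, k3, k4⟩, k5⟩
      exact ⟨⟨h1.trans k1, h2.trans k2, h3.trans k3, h4.trans k4⟩, fun e1 e2 e3 =>
        (h5 e1 e2 e3).trans (k5 (h1.symm.trans e1) (h2.symm.trans e2) (h3.symm.trans e3))⟩
  mul' := fun h k => key h.1 k.1

theorem con_iff (u v : FreeSemigroup Letter) : con u v ↔ Rel u v := Iff.rfl

/-- The semigroup. -/
abbrev S : Type := con.Quotient

/-- the generator given by a letter -/
def gen (x : Letter) : S := (FreeSemigroup.of x : FreeSemigroup Letter)

/-- `S` has three generators. -/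
theorem closure_gen : Subsemigroup.closure (Set.range gen) = ⊤ := by
  rw [eq_top_iff]
  rintro x -
  induction x using Con.induction_on with
  | _ u =>
    induction u using FreeSemigroup.recOnMul with
    | ih1 x => exact Subsemigroup.subset_closure ⟨x, rfl⟩
    | ih2 x y hx hy =>
      rw [Con.coe_mul]
      exact Subsemigroup.mul_mem _ hx hy

/-- The congruence of `S` which identifies elements with the same image in the rectangular group. -/
def kappa : Con S where
  r x y := ∀ u v : FreeSemigroup Letter, (u : S) = x → (v : S) = y → Same u v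
  iseqv := by
    refine ⟨?_, ?_, ?_⟩
    · intro x u v hu hv
      exact ((con_iff u v).1 ((Con.eq con).1 (hu.trans hv.symm))).1
    · intro x y h u v hu hv
      obtain ⟨h1, h2, h3, h4⟩ := h v u hv hu
      exact ⟨h1.symm, h2.symm, h3.symm, h4.symm⟩
    · intro x y z h k u w hu hw
      obtain ⟨v, hv⟩ : ∃ v : FreeSemigroup Letter, (v : S) = y := Quotient.exists_rep y
      obtain ⟨h1, h2, h3, h4⟩ := h u v hu hv
      obtain ⟨k1, k2, k3, k4⟩ := k v w hv hw
      exact ⟨h1.trans k1, h2.trans k2, h3.trans k3, h4.trans k4⟩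
  mul' := by
    intro x y z w h k u v hu hv
    obtain ⟨x, rfl⟩ : ∃ v : FreeSemigroup Letter, (v : S) = x := Quotient.exists_rep x
    obtain ⟨y, rfl⟩ : ∃ v : FreeSemigroup Letter, (v : S) = y := Quotient.exists_rep y
    obtain ⟨z, rfl⟩ : ∃ v : FreeSemigroup Letter, (v : S) = z := Quotient.exists_rep z
    obtain ⟨w, rfl⟩ : ∃ v : FreeSemigroup Letter, (v : S) = w := Quotient.exists_rep w
    have e := (key (h x y rfl rfl) (k z w rfl rfl)).1
    rw [← Con.coe_mul] at hu hv
    have e1 := ((con_iff _ _).1 ((Con.eq con).1 hu)).1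
    have e2 := ((con_iff _ _).1 ((Con.eq con).1 hv)).1
    obtain ⟨a1, a2, a3, a4⟩ := e
    obtain ⟨b1, b2, b3, b4⟩ := e1
    obtain ⟨c1, c2, c3, c4⟩ := e2
    exact ⟨b1.trans (a1.trans c1.symm), b2.trans (a2.trans c2.symm), b3.trans (a3.trans c3.symm),
      b4.trans (a4.trans c4.symm)⟩

theorem kappa_coe (u v : FreeSemigroup Letter) : kappa (u : S) (v : S) ↔ Same u v := by
  constructor
  · intro h
    exact h u v rfl rfl
  · intro h u' v' hu hv
    obtain ⟨a1, a2, a3, a4⟩ := h
    obtain ⟨b1, b2, b3, b4⟩ := ((con_iff _ _).1 ((Con.eq con).1 hu)).1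
    obtain ⟨c1, c2, c3, c4⟩ := ((con_iff _ _).1 ((Con.eq con).1 hv)).1
    exact ⟨b1.trans (a1.trans c1.symm), b2.trans (a2.trans c2.symm), b3.trans (a3.trans c3.symm),
      b4.trans (a4.trans c4.symm)⟩

/-- `kappa` is annihilated by multiplication. -/
theorem kappa_mul {x x' y y' : S} (h : kappa x x') (k : kappa y y') : x * y = x' * y' := by
  obtain ⟨x, rfl⟩ : ∃ v : FreeSemigroup Letter, (v : S) = x := Quotient.exists_rep x
  obtain ⟨y, rfl⟩ : ∃ v : FreeSemigroup Letter, (v : S) = y := Quotient.exists_rep y
  obtain ⟨x', rfl⟩ : ∃ v : FreeSemigroup Letter, (v : S) = x' := Quotient.exists_rep x'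
  obtain ⟨y', rfl⟩ : ∃ v : FreeSemigroup Letter, (v : S) = y' := Quotient.exists_rep y'
  rw [← Con.coe_mul, ← Con.coe_mul, Con.eq, con_iff]
  exact key ((kappa_coe _ _).1 h) ((kappa_coe _ _).1 k)

theorem cen_left : Cen (S := S) (fun _ : Fin 1 => ⊤) kappa ⊥ :=
  genL (fun x y z h => kappa_mul h (kappa.refl z)) (fun x y z h => kappa_mul (kappa.refl z) h)

theorem cen_right : Cen (S := S) (fun _ : Fin 1 => kappa) ⊤ ⊥ :=
  genR (fun x y z h => kappa_mul h (kappa.refl z)) (fun x y z h => kappa_mul (kappa.refl z) h)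

/-- The quotient of `S` by `kappa` is abelian. -/
theorem cen_top : Cen (S := S) (fun _ : Fin 1 => ⊤) ⊤ kappa := by
  apply cen_bin (S := S) (fun x00 x01 x10 x11 : S => ∃ u00 u01 u10 u11 : FreeSemigroup Letter,
    (u00 : S) = x00 ∧ (u01 : S) = x01 ∧ (u10 : S) = x10 ∧ (u11 : S) = x11 ∧
    (val u00).P + (val u11).P = (val u01).P + (val u10).P ∧
    (val u00).D + (val u11).D = (val u01).D + (val u10).D ∧
    (((val u00).h = (val u01).h ∧ (val u10).h = (val u11).h) ∨
      ((val u00).h = (val u10).h ∧ (val u01).h = (val u11).h)) ∧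
    (((val u00).l = (val u01).l ∧ (val u10).l = (val u11).l) ∨
      ((val u00).l = (val u10).l ∧ (val u01).l = (val u11).l)))
  · intro x y _
    obtain ⟨x, rfl⟩ : ∃ v : FreeSemigroup Letter, (v : S) = x := Quotient.exists_rep x
    obtain ⟨y, rfl⟩ : ∃ v : FreeSemigroup Letter, (v : S) = y := Quotient.exists_rep y
    exact ⟨x, x, y, y, rfl, rfl, rfl, rfl, rfl, rfl, Or.inl ⟨rfl, rfl⟩, Or.inl ⟨rfl, rfl⟩⟩
  · intro x y _
    obtain ⟨x, rfl⟩ : ∃ v : FreeSemigroup Letter, (v : S) = x := Quotient.exists_rep x
    obtain ⟨y, rfl⟩ : ∃ v : FreeSemigroup Letter, (v : S) = y := Quotient.exists_rep y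
    exact ⟨x, y, x, y, rfl, rfl, rfl, rfl, by omega, by omega, Or.inr ⟨rfl, rfl⟩,
      Or.inr ⟨rfl, rfl⟩⟩
  · rintro _ _ _ _ _ _ _ _ ⟨u00, u01, u10, u11, rfl, rfl, rfl, rfl, h1, h2, h3, h4⟩
      ⟨v00, v01, v10, v11, rfl, rfl, rfl, rfl, k1, k2, k3, k4⟩
    refine ⟨u00 * v00, u01 * v01, u10 * v10, u11 * v11, Con.coe_mul _ _, Con.coe_mul _ _,
      Con.coe_mul _ _, Con.coe_mul _ _, ?_⟩
    simp only [map_mul, mul_h, mul_P, mul_D, mul_l]
    exact ⟨by omega, by omega, h3, k4⟩
  · rintro _ _ _ _ ⟨u00, u01, u10, u11, rfl, rfl, rfl, rfl, h1, h2, h3, h4⟩ h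
    rw [kappa_coe] at h ⊢
    obtain ⟨a1, a2, a3, a4⟩ := h
    refine ⟨?_, ?_, by omega, by omega⟩
    · rcases h3 with ⟨-, e⟩ | ⟨e1, e2⟩
      · exact e
      · rw [← e1, ← e2, a1]
    · rcases h4 with ⟨-, e⟩ | ⟨e1, e2⟩
      · exact e
      · rw [← e1, ← e2, a2]

theorem left_two : leftS S 2 = ⊥ := by
  rw [eq_bot_iff]
  refine leftS_step (d := 1) (β := kappa) ?_ cen_left
  exact leftS_step (d := 0) (β := ⊤) le_top cen_top

theorem right_two : rightS S 2 = ⊥ := by
  rw [eq_bot_iff]
  refine rightS_step (d := 1) (β := kappa) ?_ cen_right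
  exact rightS_step (d := 0) (β := ⊤) le_top cen_top

/-- The outer letter in the column `j`. -/
def outer (j : Bool) : Letter := if j = true then Letter.d else Letter.c

/-- The words which are the entries of the matrices, without the first letter. -/
def word {m : ℕ} (ε : Fin m → Bool) (j : Bool) : List (Fin m) → FreeSemigroup Letter
  | [] => FreeSemigroup.of (outer j)
  | i :: L => FreeSemigroup.of (if ε i = true then Letter.b else Letter.c) * word ε j L

theorem word_mem {m : ℕ} (L : List (Fin m)) :
    (fun ε j => (word ε j L : S)) ∈ MM (S := S) (fun _ : Fin m => ⊤) ⊤ := by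
  induction L with
  | nil =>
    apply Subsemigroup.subset_closure
    right
    refine ⟨gen Letter.c, gen Letter.d, trivial, ?_⟩
    funext ε j
    cases j <;> rfl
  | cons i L ih =>
    have h1 : (fun ε _ => if ε i = true then gen Letter.b else gen Letter.c) ∈
        MM (S := S) (fun _ : Fin m => ⊤) ⊤ :=
      Subsemigroup.subset_closure (Or.inl ⟨i, gen Letter.c, gen Letter.b, trivial, rfl⟩)
    have h2 := Subsemigroup.mul_mem _ h1 ih
    convert h2 using 1
    funext ε j
    change ((FreeSemigroup.of (if ε i = true then Letter.b else Letter.c) * word ε j L :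
      FreeSemigroup Letter) : S) = (if ε i = true then gen Letter.b else gen Letter.c) * _
    rw [Con.coe_mul]
    congr 1
    split_ifs <;> rfl

theorem val_word {m : ℕ} (ε : Fin m → Bool) (j : Bool) (L : List (Fin m)) :
    (val (word ε j L)).P = L.countP (fun i => ε i = false) + 1 ∧
    (val (word ε j L)).D = (if j = true then 1 else 0) ∧ (val (word ε j L)).l = true := by
  induction L with
  | nil => cases j <;> simp [word, val_of, outer, letter]
  | cons i L ih =>
    obtain ⟨h1, h2, h3⟩ := ih
    rw [word, map_mul, mul_P, mul_D, mul_l, h1, h2, h3, val_of, List.countP_cons]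
    cases hi : ε i <;> simp [letter] <;> omega

theorem val_full {m : ℕ} (ε : Fin m → Bool) (j : Bool) :
    (val (FreeSemigroup.of (outer j) * word ε j (List.finRange m))).h = true ∧
    (val (FreeSemigroup.of (outer j) * word ε j (List.finRange m))).P =
      (List.finRange m).countP (fun i => ε i = false) + 2 ∧
    (val (FreeSemigroup.of (outer j) * word ε j (List.finRange m))).D =
      (if j = true then 2 else 0) ∧
    (val (FreeSemigroup.of (outer j) * word ε j (List.finRange m))).l = true := by
  obtain ⟨h1, h2, h3⟩ := val_word ε j (List.finRange m)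
  rw [map_mul, mul_h, mul_P, mul_D, mul_l, h1, h2, h3, val_of]
  cases j <;> simp [outer, letter] <;> omega

theorem not_supernilpotent (m : ℕ) : ¬ Supernilpotent S m := by
  rw [supernilpotent_iff]
  intro h
  have h1 : (fun (_ : Fin m → Bool) (j : Bool) => if j = true then gen Letter.d else gen Letter.c) ∈
      MM (S := S) (fun _ : Fin m => ⊤) ⊤ :=
    Subsemigroup.subset_closure (Or.inr ⟨gen Letter.c, gen Letter.d, trivial, rfl⟩)
  have h2 := h _ (Subsemigroup.mul_mem _ h1 (word_mem (List.finRange m)))
  have e : ∀ (ε : Fin m → Bool) (j : Bool),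
      ((fun (_ : Fin m → Bool) (j : Bool) => if j = true then gen Letter.d else gen Letter.c) *
        (fun ε j => (word ε j (List.finRange m) : S))) ε j =
      ((FreeSemigroup.of (outer j) * word ε j (List.finRange m) : FreeSemigroup Letter) : S) := by
    intro ε j
    rw [Con.coe_mul]
    cases j <;> rfl
  have h3 : ∀ ε : Fin m → Bool, ((FreeSemigroup.of (outer false) * word ε false (List.finRange m) :
      FreeSemigroup Letter) : S) = ((FreeSemigroup.of (outer true) * word ε true (List.finRange m) :
      FreeSemigroup Letter) : S) ↔ ε ≠ (fun _ => true) := by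
    intro ε
    rw [Con.eq, con_iff]
    obtain ⟨a1, a2, a3, a4⟩ := val_full ε false
    obtain ⟨b1, b2, b3, b4⟩ := val_full ε true
    unfold Rel Same
    rw [a1, a2, a3, a4, b1, b2, b3, b4]
    constructor
    · rintro ⟨-, k⟩ rfl
      have := k rfl rfl (by
        rw [List.countP_eq_zero.2]
        intro i _
        simp)
      simp at this
    · intro hne
      refine ⟨⟨rfl, rfl, rfl, by simp⟩, fun _ _ k => ?_⟩
      exfalso
      apply hne
      funext i
      have k0 : (List.finRange m).countP (fun i => ε i = false) = 0 := by omega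
      rw [List.countP_eq_zero] at k0
      have := k0 i (List.mem_finRange i)
      simpa using this
  have h4 := h2 (fun ε hε => by rw [e, e]; exact (h3 ε).2 hε)
  rw [e, e] at h4
  exact (h3 _).1 h4 rfl

/-- **Q2 of MP_d3d931_al, answered in the negative.** There is a semigroup, generated by three
elements, which is left `2`-nilpotent and right `2`-nilpotent, that is, `[1, [1, 1]] = 0` and
`[[1, 1], 1] = 0`, but which is not `d`-supernilpotent for any `d`. -/
theorem result : ∃ (S : Type) (_ : Semigroup S),
    (∃ g : Fin 3 → S, Subsemigroup.closure (Set.range g) = ⊤) ∧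
    leftS S 2 = ⊥ ∧ rightS S 2 = ⊥ ∧ ∀ d : ℕ, ¬ Supernilpotent S d := by
  refine ⟨S, inferInstance, ⟨fun i => gen (![Letter.b, Letter.c, Letter.d] i), ?_⟩, left_two,
    right_two, not_supernilpotent⟩
  rw [← closure_gen]
  congr 1
  ext x
  constructor
  · rintro ⟨i, rfl⟩
    exact ⟨_, rfl⟩
  · rintro ⟨y, rfl⟩
    cases y
    · exact ⟨0, rfl⟩
    · exact ⟨1, rfl⟩
    · exact ⟨2, rfl⟩

end Pool.Agent.Results.MP_d3d931_al.NilpotentNotSupernilpotent
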